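import Pool.Agent.helper62.DP8.Spec

/-!
Project sq8: (MP_e3efbc_co): module BB1: the start of a partial colouring of type B with two vertices.
-/

set_option autoImplicit false

namespace Pool.Agent.helper62.DP8

theorem BB1 : BB1_stmt := by
  intro g W a R t hC hT v x hx y hy htx hty hR
  refine ⟨fun j => if j = 1 then x else y, ?_⟩
  have c1 : (fun j : ℕ => if j = 1 then x else y) 1 = x := by simp
  have c2 : (fun j : ℕ => if j = 1 then x else y) 2 = y := by simp
  refine ⟨?_, ?_, ?_, ?_, ?_, ?_, ?_⟩
  · intro j h1 h2
    have h3 : j = 1 ∨ j = 2 := by omega
    rcases h3 with h3 | h3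
    · subst h3
      simpa using hx
    · subst h3
      simpa using hy
  · intro j h1 h2
    have h3 : j = 1 := by omega
    subst h3
    simpa using hR
  · intro j h1 h2
    omega
  · intro s
    refine ⟨?_, ?_, ?_⟩
    · intro h
      have h' : t 0 s x := by simpa using h
      have := (hT.un 0 x hx 0 2 s v (by omega) (by omega) (by omega) (by omega) h' htx).1
      omega
    · intro h
      have h' : t 1 s x := by simpa using h
      have := (hT.un 0 x hx 1 2 s v (by omega) (by omega) (by omega) (by omega) h' htx).1
      omega
    · intro h
      have h' : t 1 s y := by simpa using h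
      have := (hT.un 1 y hy 1 2 s v (by omega) (by omega) (by omega) (by omega) h' hty).1
      omega
  · intro j h1 h2
    omega
  · refine ⟨!v, ?_, ?_⟩
    · intro h
      have h' : t 2 (!v) x := by simpa using h
      have := (hT.un 0 x hx 2 2 (!v) v (by omega) (by omega) (by omega) (by omega) h' htx).2
      cases v <;> simp at this
    · intro h
      have h' : t 2 (!v) y := by simpa using h
      have := (hT.un 1 y hy 2 2 (!v) v (by omega) (by omega) (by omega) (by omega) h' hty).2
      cases v <;> simp at this
  · intro s h
    have h' : t 3 s y := by simpa using h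
    have := (hT.un 1 y hy 3 2 s v (by omega) (by omega) (by omega) (by omega) h' hty).1
    omega

end Pool.Agent.helper62.DP8
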